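import Pool.Agent.X307.BS.Iso

/-!
# Rational motivic cohomology over the extensions of a field, by formal properties
-/

open Cardinal

namespace Pool.Agent.X307.BS

/-- The groups `H F k j = H^k(M_F, ℚ(j))` of a fixed motive `M` over the field `K`, for all fields
`F` over `K` (for example `M = M(X)` for a smooth projective variety `X` over `K`), and the maps
`H F k j → H E k j` given by the `K`-homomorphisms `F → E`. -/
structure Coh (K : Type) [Field K] where
  H : (F : Type) → [Field F] → [Algebra K F] → ℤ → ℕ → Type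
  [grp : (F : Type) → [Field F] → [Algebra K F] → (k : ℤ) → (j : ℕ) → AddCommGroup (H F k j)]
  map : {F E : Type} → [Field F] → [Algebra K F] → [Field E] → [Algebra K E] → (F →ₐ[K] E) →
    (k : ℤ) → (j : ℕ) → (H F k j →+ H E k j)

attribute [instance] Coh.grp

/-- Functoriality of `H^k(M_F, ℚ(j))` in the field `F`. -/
structure IsFunctorial {K : Type} [Field K] (C : Coh K) : Prop where
  map_id : ∀ (F : Type) [Field F] [Algebra K F] (k : ℤ) (j : ℕ) (x : C.H F k j),
    C.map (AlgHom.id K F) k j x = x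
  map_comp : ∀ (F E G : Type) [Field F] [Algebra K F] [Field E] [Algebra K E] [Field G]
    [Algebra K G] (f : F →ₐ[K] E) (g : E →ₐ[K] G) (k : ℤ) (j : ℕ) (x : C.H F k j),
    C.map (g.comp f) k j x = C.map g k j (C.map f k j x)

/-- The maps `H^k(M_F, ℚ(j)) → H^k(M_E, ℚ(j))` given by extensions of fields are injective (the
coefficients are rational). -/
def InjectiveOnFields {K : Type} [Field K] (C : Coh K) : Prop :=
  ∀ (F E : Type) [Field F] [Algebra K F] [Field E] [Algebra K E] (f : F →ₐ[K] E) (k : ℤ) (j : ℕ),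
    Function.Injective (C.map f k j)

/-- `H^k(M_F, ℚ(j))` embeds into `H^(k+1)(M_F(t), ℚ(j + 1))` (by the product with the class of the
unit `t`: the residue at `t = 0` of the product is the given class). -/
def HasUnitProducts {K : Type} [Field K] (C : Coh K) : Prop :=
  ∀ (F : Type) [Field F] [Algebra K F] (k : ℤ) (j : ℕ),
    ∃ m : C.H F k j →+ C.H (RatFunc F) (k + 1) (j + 1), Function.Injective m

/-- `H^k(M_F, ℚ(0)) = 0` for `k < 0`. -/
def WeightZero {K : Type} [Field K] (C : Coh K) : Prop :=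
  ∀ (F : Type) [Field F] [Algebra K F] (k : ℤ), k < 0 → ∀ x : C.H F k 0, x = 0

/-- Formal properties of `H^k(M_F, ℚ(j))`. -/
structure IsCoh {K : Type} [Field K] (C : Coh K) : Prop where
  functorial : IsFunctorial C
  injective : InjectiveOnFields C
  unit_mul : HasUnitProducts C
  weight_zero : WeightZero C

/-- `H^k(M_F, ℚ(j)) = 0`. -/
def Zero {K : Type} [Field K] (C : Coh K) (F : Type) [Field F] [Algebra K F] (k : ℤ) (j : ℕ) :
    Prop :=
  ∀ x : C.H F k j, x = 0

/-- `L` is the function field of a curve over `K`. -/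
def IsCurveField (K L : Type) [Field K] [Field L] [Algebra K L] : Prop :=
  Algebra.EssFiniteType K L ∧ Algebra.trdeg K L = 1

section

variable {K : Type} [Field K] {C : Coh K} (hC : IsCoh C)

include hC

theorem Zero.of_map {F E : Type} [Field F] [Algebra K F] [Field E] [Algebra K E]
    (f : F →ₐ[K] E) {k : ℤ} {j : ℕ} (h : Zero C E k j) : Zero C F k j := fun x =>
  hC.injective F E f k j ((h _).trans (map_zero _).symm)

theorem mk_closure_ratFunc (Ω : Type) [Field Ω] (hΩ : ℵ₀ < #Ω) :
    #(AlgebraicClosure (RatFunc Ω)) = #Ω := by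
  apply le_antisymm
  · have h1 : #(AlgebraicClosure (RatFunc Ω)) ≤ max #(RatFunc Ω) ℵ₀ :=
      Algebra.IsAlgebraic.cardinalMk_le_max _ _
    have h2 : #(RatFunc Ω) ≤ #(Polynomial Ω) :=
      IsLocalization.cardinalMk_le (nonZeroDivisors (Polynomial Ω))
    have h3 : #(Polynomial Ω) ≤ max #Ω ℵ₀ := Polynomial.cardinalMk_le_max
    have h4 : max #Ω ℵ₀ = #Ω := max_eq_left hΩ.le
    exact h1.trans (max_le (h2.trans (h3.trans h4.le)) hΩ.le)
  · exact Cardinal.mk_le_of_injective (algebraMap Ω (AlgebraicClosure (RatFunc Ω))).injective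

/-- If the group of degree `k + 1` and weight `j + 1` is zero, so is the one of degree `k` and
weight `j`, over an uncountable algebraically closed field. -/
theorem Zero.of_succ [Countable K] (Ω : Type) [Field Ω] [Algebra K Ω] [IsAlgClosed Ω]
    (hΩ : ℵ₀ < #Ω) {k : ℤ} {j : ℕ} (h : Zero C Ω (k + 1) (j + 1)) : Zero C Ω k j := by
  obtain ⟨m, hm⟩ := hC.unit_mul Ω k j
  have hcard := mk_closure_ratFunc hC Ω hΩ
  obtain ⟨e⟩ := exists_algEquiv K (AlgebraicClosure (RatFunc Ω)) Ω (hcard ▸ hΩ) hcard
  have h1 : Zero C (AlgebraicClosure (RatFunc Ω)) (k + 1) (j + 1) := h.of_map hC e.toAlgHom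
  have h2 : Zero C (RatFunc Ω) (k + 1) (j + 1) :=
    h1.of_map hC (IsScalarTower.toAlgHom K (RatFunc Ω) (AlgebraicClosure (RatFunc Ω)))
  intro x
  exact hm ((h2 _).trans (map_zero _).symm)

/-- Vanishing in degree `m` and all positive weights implies vanishing in all degrees `≤ m` and
positive weights. -/
theorem zero_of_degree [Countable K] (Ω : Type) [Field Ω] [Algebra K Ω] [IsAlgClosed Ω]
    (hΩ : ℵ₀ < #Ω) {m : ℤ} (h : ∀ j : ℕ, Zero C Ω m (j + 1)) (k : ℤ) (hk : k ≤ m) (j : ℕ) :
    Zero C Ω k (j + 1) := by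
  obtain ⟨n, rfl⟩ : ∃ n : ℕ, k = m - n := ⟨(m - k).toNat, by omega⟩
  clear hk
  induction n generalizing j with
  | zero => simpa using h j
  | succ n ih =>
    have := ih (j + 1)
    have e : m - (n : ℤ) = (m - ((n + 1 : ℕ) : ℤ)) + 1 := by push_cast; ring
    rw [e] at this
    exact this.of_succ hC Ω hΩ

end

end Pool.Agent.X307.BS
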