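import Pool.Agent.X307.BS.Defs

/-!
# Induction on the transcendence degree
-/

open Cardinal Algebra

namespace Pool.Agent.X307.BS

/-- Continuity: every class over an extension field `Ω` of `K` comes from a field between `K` and
`Ω` which is finitely generated over `K`. -/
def IsContinuous {k₀ : Type} [Field k₀] (P : Coh k₀) : Prop :=
  ∀ (K Ω : Type) [Field K] [Algebra k₀ K] [Field Ω] [Algebra k₀ Ω] [Algebra K Ω]
    [IsScalarTower k₀ K Ω] (k : ℤ) (j : ℕ) (x : P.H Ω k j),
    ∃ L : IntermediateField K Ω, L.FG ∧
      ∃ y : P.H L k j, P.map (L.val.restrictScalars k₀) k j y = x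

theorem trdeg_adjoin {k₀ E : Type} [Field k₀] [Field E] [Algebra k₀ E] {S : Set E}
    (hS : AlgebraicIndependent k₀ ((↑) : S → E)) :
    trdeg k₀ (IntermediateField.adjoin k₀ (Set.range ((↑) : S → E))) = #S := by
  have : Algebra.IsAlgebraic (MvPolynomial S k₀) (FractionRing (MvPolynomial S k₀)) :=
    IsLocalization.isAlgebraic _ (nonZeroDivisors (MvPolynomial S k₀))
  rw [← hS.aevalEquivField.trdeg_eq,
    ← trdeg_add_eq k₀ (MvPolynomial S k₀) (A := FractionRing (MvPolynomial S k₀)),
    MvPolynomial.trdeg_of_isDomain, trdeg_eq_zero_iff.mpr inferInstance, add_zero,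
    Cardinal.lift_id]

/-- A class over `E` which comes from finitely generated fields over the algebraically closed field
`K`, if `trdeg K E = 1`. -/
theorem zero_step {k₀ : Type} [Field k₀] {P : Coh k₀} (hP : IsCoh P)
    (hc : IsContinuous P) (k : ℤ) (j : ℕ) (K E : Type) [Field K] [Algebra k₀ K] [IsAlgClosed K]
    [Field E] [Algebra k₀ E] [Algebra K E] [IsScalarTower k₀ K E] (hE : trdeg K E = 1)
    (hK : Zero P K k j) (hL : ∀ L : IntermediateField K E, IsCurveField K L → Zero P L k j) :
    Zero P E k j := by
  intro x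
  obtain ⟨L, hfg, y, rfl⟩ := hc K E k j x
  suffices hy : y = 0 by rw [hy, map_zero]
  by_cases halg : Algebra.IsAlgebraic K L
  · have hb : Function.Bijective (algebraMap K L) :=
      IsAlgClosed.algebraMap_bijective_of_isIntegral
    let e : K ≃ₐ[k₀] L := AlgEquiv.ofBijective (IsScalarTower.toAlgHom k₀ K L) hb
    exact hK.of_map hP e.symm.toAlgHom y
  · refine hL L ⟨IntermediateField.essFiniteType_iff.mpr hfg, ?_⟩ y
    apply le_antisymm
    · rw [← hE]
      exact trdeg_le_of_injective L.val L.val.injective
    · rw [Cardinal.one_le_iff_ne_zero]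
      exact fun h => halg (trdeg_eq_zero_iff.mp h)

/-- Vanishing for all fields of finite transcendence degree over the countable field `k₀` follows
from vanishing for algebraic extensions of `k₀` and from the step to function fields of curves. -/
theorem zero_of_trdeg {k₀ : Type} [Field k₀] [Countable k₀] {P : Coh k₀} (hP : IsCoh P)
    (hc : IsContinuous P) (k : ℤ) (j : ℕ)
    (hbase : ∀ (K : Type) [Field K] [Algebra k₀ K] [IsAlgClosed K] [Algebra.IsAlgebraic k₀ K],
      Zero P K k j)
    (hcurve : ∀ (K L : Type) [Field K] [Algebra k₀ K] [IsAlgClosed K] [Countable K] [Field L]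
      [Algebra k₀ L] [Algebra K L] [IsScalarTower k₀ K L], IsCurveField K L →
      Zero P K k j → Zero P L k j) (n : ℕ) :
    ∀ (F : Type) [Field F] [Algebra k₀ F], trdeg k₀ F = n → Zero P F k j := by
  induction n with
  | zero =>
    intro F _ _ h
    have : Algebra.IsAlgebraic k₀ F := trdeg_eq_zero_iff.mp (by simpa using h)
    have : Algebra.IsAlgebraic k₀ (AlgebraicClosure F) :=
      Algebra.IsAlgebraic.trans k₀ F (AlgebraicClosure F)
    exact (hbase (AlgebraicClosure F)).of_map hP (IsScalarTower.toAlgHom k₀ F _)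
  | succ n ih =>
    intro F _ _ h
    let E := AlgebraicClosure F
    have hE : trdeg k₀ E = (n + 1 : ℕ) := by
      rw [← trdeg_add_eq k₀ F (A := E), h, trdeg_eq_zero_iff.mpr inferInstance, add_zero]
    suffices h0 : Zero P E k j from h0.of_map hP (IsScalarTower.toAlgHom k₀ F _)
    obtain ⟨s, hs⟩ := exists_isTranscendenceBasis k₀ E
    have hcard : #s = (n + 1 : ℕ) := by rw [← hE, ← hs.cardinalMk_eq_trdeg]
    obtain ⟨a, ha⟩ : s.Nonempty := by
      rw [Set.nonempty_iff_ne_empty]
      rintro rfl
      simp at hcard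
      exact (by positivity : ((n : Cardinal) + 1) ≠ 0) hcard.symm
    let S : Set E := s \ {a}
    have hS : AlgebraicIndependent k₀ ((↑) : S → E) := hs.1.mono Set.diff_subset
    have hSc : #S = n := by
      have h1 : #S + 1 = #s := by
        rw [← Cardinal.mk_insert (s := S) (a := a) (by simp [S])]
        congr 1
        simp [S, Set.insert_diff_singleton, Set.insert_eq_of_mem ha]
      rw [hcard] at h1
      push_cast at h1
      exact Cardinal.add_one_inj.mp h1
    let A₀ := IntermediateField.adjoin k₀ (Set.range ((↑) : S → E))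
    let K := algebraicClosure A₀ E
    have : IsAlgClosed K := IsAlgClosure.isAlgClosed A₀
    have : IsScalarTower k₀ K E := IsScalarTower.of_algebraMap_eq (fun _ => rfl)
    have hA : trdeg k₀ A₀ = n := (trdeg_adjoin hS).trans hSc
    have hK : trdeg k₀ K = n := by
      rw [← trdeg_add_eq k₀ A₀ (A := K), hA, trdeg_eq_zero_iff.mpr inferInstance, add_zero]
    have hKE : trdeg K E = 1 := by
      have h1 := trdeg_add_eq k₀ K (A := E)
      rw [hK, hE] at h1
      push_cast at h1
      exact Cardinal.eq_of_add_eq_add_left h1 (Cardinal.natCast_lt_aleph0)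
    have : Countable K := by
      rw [← Cardinal.mk_le_aleph0_iff]
      have h1 : #K ≤ max #A₀ ℵ₀ := Algebra.IsAlgebraic.cardinalMk_le_max _ _
      have h2 : #A₀ ≤ max (max #k₀ #(Set.range ((↑) : S → E))) ℵ₀ :=
        IntermediateField.cardinalMk_adjoin_le _ _
      have h3 : #(Set.range ((↑) : S → E)) ≤ ℵ₀ := by
        rw [Subtype.range_coe, hSc]
        exact (Cardinal.natCast_lt_aleph0).le
      exact h1.trans (max_le (h2.trans (max_le (max_le Cardinal.mk_le_aleph0 h3) le_rfl)) le_rfl)
    refine zero_step hP hc k j K E hKE (ih K hK) (fun L hL => ?_)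
    exact hcurve K L hL (ih K hK)

end Pool.Agent.X307.BS
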