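import Mathlib

/-!
# Uncountable algebraically closed extensions of a countable field
-/

open Cardinal

namespace Pool.Agent.X307.BS

/-- Two algebraically closed extensions of the countable field `K` of the same uncountable
cardinality are isomorphic over `K`. -/
theorem exists_algEquiv (K : Type) [Field K] [Countable K] (A B : Type) [Field A] [Field B]
    [Algebra K A] [Algebra K B] [IsAlgClosed A] [IsAlgClosed B] (hA : ℵ₀ < #A)
    (hAB : #A = #B) : Nonempty (A ≃ₐ[K] B) := by
  obtain ⟨s, hs⟩ := exists_isTranscendenceBasis K A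
  obtain ⟨t, ht⟩ := exists_isTranscendenceBasis K B
  have hK : #K ≤ ℵ₀ := Cardinal.mk_le_aleph0
  have h1 := IsAlgClosed.cardinal_eq_cardinal_transcendence_basis_of_aleph0_lt _ hs hK hA
  have h2 := IsAlgClosed.cardinal_eq_cardinal_transcendence_basis_of_aleph0_lt _ ht hK (hAB ▸ hA)
  simp only [Cardinal.lift_id] at h1 h2
  obtain ⟨e⟩ : Nonempty (s ≃ t) := Cardinal.eq.mp (by rw [← h1, ← h2, hAB])
  let S := Algebra.adjoin K (Set.range ((↑) : s → A))
  let T := Algebra.adjoin K (Set.range ((↑) : t → B))
  let f : S ≃ₐ[K] T := hs.1.aevalEquiv.symm.trans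
    ((MvPolynomial.renameEquiv K e).trans ht.1.aevalEquiv)
  letI : Algebra S B := ((algebraMap T B).comp f.toRingEquiv.toRingHom).toAlgebra
  have : IsScalarTower K S B := IsScalarTower.of_algebraMap_eq (fun x => by
    change algebraMap K B x = (f (algebraMap K S x) : B)
    rw [AlgEquiv.commutes]; rfl)
  have : IsAlgClosure S A := IsAlgClosed.isAlgClosure_of_transcendence_basis _ hs
  have : IsAlgClosure T B := IsAlgClosed.isAlgClosure_of_transcendence_basis _ ht
  have hinj : Function.Injective (algebraMap S B) := by
    intro x y h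
    exact f.injective (Subtype.ext h)
  have : FaithfulSMul S B := (faithfulSMul_iff_algebraMap_injective S B).mpr hinj
  have : Module.IsTorsionFree S B := .trans_faithfulSMul S B B
  have : IsAlgClosure S B := by
    refine ⟨inferInstance, ⟨fun b => ?_⟩⟩
    have hb : IsAlgebraic T b := (IsAlgClosure.isAlgebraic (R := T) (K := B)).isAlgebraic b
    obtain ⟨p, hp, hpb⟩ := hb
    refine ⟨p.map (f.symm : T →+* S), ?_, ?_⟩
    · intro h
      apply hp
      exact (Polynomial.map_injective _ f.symm.injective) (h.trans (Polynomial.map_zero _).symm)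
    · rw [Polynomial.aeval_def, Polynomial.eval₂_map]
      rw [Polynomial.aeval_def] at hpb
      have hc : (algebraMap S B).comp (f.symm : T →+* S) = algebraMap T B := by
        apply RingHom.ext
        intro x
        change algebraMap T B (f (f.symm x)) = _
        rw [AlgEquiv.apply_symm_apply]
      rw [hc]
      exact hpb
  exact ⟨(IsAlgClosure.equiv S A B).restrictScalars K⟩

end Pool.Agent.X307.BS
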