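import Pool.Agent.X307.BS.Ind

/-!
# Reduction to the motives `h^1` of curves
-/

open Cardinal Algebra

namespace Pool.Agent.X307.BS

/-- For all fields `L` over a field `K` (used for the function fields `L` of the smooth projective
curves `Y` over `K`): the groups `(hOne K L).H F k j = H^k(h^1(Y)_F, ℚ(j))` for the fields `F` over
`K`, and the restriction `gen : H^k(h^1(Y), ℚ(j)) → H^k(L, ℚ(j))` to the generic point, where
`P.H L k j = H^k(L, ℚ(j))`. -/
structure CurveCoh {k₀ : Type} [Field k₀] (P : Coh k₀) where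
  hOne : (K L : Type) → [Field K] → [Field L] → [Algebra K L] → Coh K
  gen : (K L : Type) → [Field K] → [Field L] → [Algebra k₀ L] → [Algebra K L] → (k : ℤ) →
    (j : ℕ) → ((hOne K L).H K k j →+ P.H L k j)

/-- The consequence of the coniveau spectral sequence of `X_Ω` for a direct summand of the motive of
a smooth projective variety `X` over `K`, given by `C`: `H^k(M_Ω, ℚ(j)) = 0` if the groups
`H^(k - 2c)(E, ℚ(j - c))` are zero for all finitely generated extension fields `E` of `Ω` and all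
`c` with `0 ≤ c ≤ j`. -/
def HasConiveau {k₀ : Type} [Field k₀] (P : Coh k₀) {K : Type} [Field K] (C : Coh K) (Ω : Type)
    [Field Ω] [Algebra k₀ Ω] [Algebra K Ω] : Prop :=
  ∀ (k : ℤ) (j : ℕ), (∀ (E : Type) [Field E] [Algebra k₀ E] [Algebra Ω E]
    [IsScalarTower k₀ Ω E], Algebra.EssFiniteType Ω E → ∀ c : ℕ, c ≤ j →
      Zero P E (k - 2 * c) (j - c)) → Zero C Ω k j

/-- Known properties of `h^1(Y)` for the smooth projective curves `Y` over algebraically closed fields
`K`, with function field `L`: the formal properties and the coniveau property (over the fields `Ω`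
over `K`), and the localisation sequence: if `H^(k - 1)(K, ℚ(j)) = 0`, so that the classes in
`H^k(L, ℚ(j + 1))` have no residues, then each class in `H^k(L, ℚ(j + 1))` is the sum of one which comes
from `K` and one which comes from `H^k(h^1(Y), ℚ(j + 1))`. -/
structure IsCurveCoh {k₀ : Type} [Field k₀] {P : Coh k₀} (D : CurveCoh P) : Prop where
  isCoh : ∀ (K L : Type) [Field K] [Field L] [Algebra K L] [IsAlgClosed K],
    IsCurveField K L → IsCoh (D.hOne K L)
  coniveau : ∀ (K L : Type) [Field K] [Field L] [Algebra K L] [IsAlgClosed K],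
    IsCurveField K L → ∀ (Ω : Type) [Field Ω] [Algebra k₀ Ω] [Algebra k₀ K] [Algebra K Ω]
      [IsScalarTower k₀ K Ω], HasConiveau P (D.hOne K L) Ω
  localisation : ∀ (K L : Type) [Field K] [Field L] [Algebra k₀ K] [Algebra k₀ L] [Algebra K L]
    [IsScalarTower k₀ K L] [IsAlgClosed K], IsCurveField K L → ∀ (k : ℤ) (j : ℕ),
      Zero P K (k - 1) j → ∀ y : P.H L k (j + 1), ∃ c : P.H K k (j + 1),
        ∃ z : (D.hOne K L).H K k (j + 1),
          y = P.map (IsScalarTower.toAlgHom k₀ K L) k (j + 1) c + D.gen K L k (j + 1) z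

/-- `H^m(h^1(Y), ℚ(j + 1)) = 0` for all smooth projective curves `Y` over the algebraically closed
field `Ω` (each of them is defined over a countable algebraically closed subfield `K`, with function
field `L` over `K`). -/
def CurvesVanish {k₀ : Type} [Field k₀] {P : Coh k₀} (D : CurveCoh P) (Ω : Type) [Field Ω]
    [Algebra k₀ Ω] (m : ℤ) (j : ℕ) : Prop :=
  ∀ (K L : Type) [Field K] [Algebra k₀ K] [IsAlgClosed K] [Countable K] [Algebra K Ω]
    [IsScalarTower k₀ K Ω] [Field L] [Algebra K L], IsCurveField K L →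
      Zero (D.hOne K L) Ω m (j + 1)

theorem exists_embedding (k₀ : Type) [Field k₀] [Countable k₀] (K Ω : Type) [Field K]
    [Algebra k₀ K] [Countable K] [Field Ω] [Algebra k₀ Ω] [IsAlgClosed Ω] (hΩ : ℵ₀ < #Ω) :
    Nonempty (K →ₐ[k₀] Ω) := by
  let R := MvPolynomial Ω K
  let B := AlgebraicClosure (FractionRing R)
  have hB : #B = #Ω := by
    apply le_antisymm
    · have h1 : #B ≤ max #(FractionRing R) ℵ₀ := Algebra.IsAlgebraic.cardinalMk_le_max _ _
      have h2 : #(FractionRing R) ≤ #R := IsLocalization.cardinalMk_le (nonZeroDivisors R)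
      have h3 : #R ≤ max (max #K #Ω) ℵ₀ := MvPolynomial.cardinalMk_le_max
      exact h1.trans (max_le (h2.trans (h3.trans (max_le (max_le
        (Cardinal.mk_le_aleph0.trans hΩ.le) le_rfl) hΩ.le))) hΩ.le)
    · refine Cardinal.mk_le_of_injective (f := fun ω : Ω => algebraMap (FractionRing R) B
        (algebraMap R (FractionRing R) (MvPolynomial.X ω))) ?_
      intro x y h
      exact MvPolynomial.X_injective (IsFractionRing.injective R (FractionRing R)
        ((algebraMap (FractionRing R) B).injective h))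
  obtain ⟨e⟩ := exists_algEquiv k₀ B Ω (hB ▸ hΩ) hB
  let f : K →ₐ[k₀] B := ((IsScalarTower.toAlgHom k₀ (FractionRing R) B).comp
    (IsScalarTower.toAlgHom k₀ R (FractionRing R))).comp
      (IsScalarTower.toAlgHom k₀ K R)
  exact ⟨e.toAlgHom.comp f⟩

theorem zero_of_fg {k₀ : Type} [Field k₀] {P : Coh k₀} (hc : IsContinuous P) {k : ℤ} {j : ℕ}
    (h : ∀ (n : ℕ) (F : Type) [Field F] [Algebra k₀ F], trdeg k₀ F = n → Zero P F k j)
    (F : Type) [Field F] [Algebra k₀ F] : Zero P F k j := by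
  intro x
  obtain ⟨L, hfg, y, rfl⟩ := hc k₀ F k j x
  have : Algebra.EssFiniteType k₀ L := IntermediateField.essFiniteType_iff.mpr hfg
  have hlt : trdeg k₀ L < ℵ₀ := trdeg_lt_aleph0 k₀ L
  obtain ⟨n, hn⟩ := Cardinal.lt_aleph0.mp hlt
  rw [h n L hn y, map_zero]

variable {k₀ : Type} [Field k₀] [Countable k₀] {P : Coh k₀} (hP : IsCoh P)

include hP

/-- Vanishing over an uncountable algebraically closed field implies vanishing over its finitely
generated extension fields. -/
theorem Zero.fg (Ω : Type) [Field Ω] [Algebra k₀ Ω] [IsAlgClosed Ω] (hΩ : ℵ₀ < #Ω) {k : ℤ}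
    {j : ℕ} (h : Zero P Ω k j) (E : Type) [Field E] [Algebra k₀ E] [Algebra Ω E]
    [IsScalarTower k₀ Ω E] (hE : Algebra.EssFiniteType Ω E) : Zero P E k j := by
  have hc : #(AlgebraicClosure E) = #Ω := by
    apply le_antisymm
    · have h1 : #(AlgebraicClosure E) ≤ max #E ℵ₀ := Algebra.IsAlgebraic.cardinalMk_le_max _ _
      obtain ⟨s, hs⟩ := IntermediateField.fg_top_iff.mpr hE
      have h2 : #E ≤ max (max #Ω #(s : Set E)) ℵ₀ := by
        have h3 := IntermediateField.cardinalMk_adjoin_le Ω (s : Set E)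
        rw [hs] at h3
        rwa [Cardinal.mk_congr IntermediateField.topEquiv.toEquiv] at h3
      have h4 : #(s : Set E) ≤ ℵ₀ := Cardinal.mk_le_aleph0
      exact h1.trans (max_le (h2.trans (max_le (max_le le_rfl (h4.trans hΩ.le)) hΩ.le)) hΩ.le)
    · exact Cardinal.mk_le_of_injective (f := fun ω => algebraMap E (AlgebraicClosure E)
        (algebraMap Ω E ω)) ((algebraMap E (AlgebraicClosure E)).injective.comp
          (algebraMap Ω E).injective)
  obtain ⟨e⟩ := exists_algEquiv k₀ (AlgebraicClosure E) Ω (hc ▸ hΩ) hc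
  exact (h.of_map hP e.toAlgHom).of_map hP (IsScalarTower.toAlgHom k₀ E _)

/-- Vanishing for `Ω` in all degrees `≤ m` and weights `≤ n` implies vanishing for motives with the
coniveau property. -/
theorem zero_of_coniveau (Ω : Type) [Field Ω] [Algebra k₀ Ω] [IsAlgClosed Ω] (hΩ : ℵ₀ < #Ω)
    {m : ℤ} (hm : m ≤ 0) {n : ℕ} (h : ∀ k : ℤ, k ≤ m → ∀ j : ℕ, j < n → Zero P Ω k (j + 1))
    {K : Type} [Field K] {C : Coh K} [Algebra K Ω] (hC : HasConiveau P C Ω) (k : ℤ) (hk : k ≤ m)
    (j : ℕ) (hj : j < n) : Zero C Ω k (j + 1) := by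
  refine hC k (j + 1) (fun E _ _ _ _ hE c hcj => ?_)
  rcases Nat.lt_or_ge j c with h1 | h1
  · obtain rfl : c = j + 1 := by omega
    have : Zero P E (k - 2 * ((j + 1 : ℕ) : ℤ)) 0 := hP.weight_zero E _ (by push_cast; omega)
    simpa using this
  · have e : j + 1 - c = (j - c) + 1 := by omega
    rw [e]
    exact (h _ (by omega) _ (by omega)).fg hP Ω hΩ E hE

/-- Vanishing for the motives `h^1` of all curves over `Ω` in degrees `≤ m` and weights `≤ n` implies
vanishing for all fields over `k₀` in these degrees and weights. -/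
theorem zero_of_hOne (hc : IsContinuous P) {D : CurveCoh P} (hD : IsCurveCoh D) (Ω : Type)
    [Field Ω] [Algebra k₀ Ω] [IsAlgClosed Ω] (hΩ : ℵ₀ < #Ω) {m : ℤ} (hm : m ≤ 0)
    (hbase : ∀ (K : Type) [Field K] [Algebra k₀ K] [IsAlgClosed K] [Algebra.IsAlgebraic k₀ K]
      (k : ℤ) (j : ℕ), k ≤ m → Zero P K k (j + 1)) {n : ℕ}
    (h : ∀ (k : ℤ) (j : ℕ), k ≤ m → j < n → CurvesVanish D Ω k j) (j : ℕ) (hj : j < n) :
    ∀ k : ℤ, k ≤ m → ∀ (F : Type) [Field F] [Algebra k₀ F], Zero P F k (j + 1) := by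
  -- vanishing of `h^1` in all degrees `≤ m` over `K`
  have h1 : ∀ (K L : Type) [Field K] [Algebra k₀ K] [IsAlgClosed K] [Countable K] [Field L]
      [Algebra K L], IsCurveField K L → ∀ k : ℤ, k ≤ m → ∀ j : ℕ, j < n →
        Zero (D.hOne K L) K k (j + 1) := by
    intro K L _ _ _ _ _ _ hL k hk j hj
    obtain ⟨f⟩ := exists_embedding k₀ K Ω hΩ
    letI : Algebra K Ω := f.toRingHom.toAlgebra
    have : IsScalarTower k₀ K Ω := IsScalarTower.of_algebraMap_eq (fun x => (f.commutes x).symm)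
    exact (h k j hk hj K L hL).of_map (hD.isCoh K L hL) (Algebra.ofId K Ω)
  -- all fields of finite transcendence degree
  suffices h2 : ∀ k : ℤ, k ≤ m → ∀ (n : ℕ) (F : Type) [Field F] [Algebra k₀ F],
      trdeg k₀ F = n → Zero P F k (j + 1) from fun k hk F _ _ =>
    zero_of_fg hc (fun n F _ _ hn => h2 k hk n F hn) F
  induction j with
  | zero =>
    intro k hk n'
    refine zero_of_trdeg hP hc k 1 (fun K _ _ _ _ => hbase K k 0 hk) ?_ n'
    intro K L _ _ _ _ _ _ _ _ hL hK y
    obtain ⟨c, z, rfl⟩ := hD.localisation K L hL k 0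
      (hP.weight_zero K _ (by omega)) y
    rw [hK c, h1 K L hL k hk 0 hj z, map_zero, map_zero, add_zero]
  | succ j ih =>
    intro k hk n'
    refine zero_of_trdeg hP hc k (j + 1 + 1) (fun K _ _ _ _ => hbase K k (j + 1) hk) ?_ n'
    intro K L _ _ _ _ _ _ _ _ hL hK y
    have hres : Zero P K (k - 1) (j + 1) :=
      zero_of_fg hc (fun n F _ _ hn => ih (by omega) (k - 1) (by omega) n F hn) K
    obtain ⟨c, z, rfl⟩ := hD.localisation K L hL k (j + 1) hres y
    rw [hK c, h1 K L hL k hk (j + 1) hj z, map_zero, map_zero, add_zero]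

/-- Weight by weight: vanishing for `Ω` in all degrees `≤ m` and positive weights `≤ n` is
equivalent to vanishing in these degrees and weights for the motives `h^1` of all curves over
`Ω`. -/
theorem iff_curves_weight (hc : IsContinuous P) {D : CurveCoh P} (hD : IsCurveCoh D) (Ω : Type)
    [Field Ω] [Algebra k₀ Ω] [IsAlgClosed Ω] (hΩ : ℵ₀ < #Ω) {m : ℤ} (hm : m ≤ 0)
    (hbase : ∀ (K : Type) [Field K] [Algebra k₀ K] [IsAlgClosed K] [Algebra.IsAlgebraic k₀ K]
      (k : ℤ) (j : ℕ), k ≤ m → Zero P K k (j + 1)) (n : ℕ) :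
    (∀ (k : ℤ) (j : ℕ), k ≤ m → j < n → Zero P Ω k (j + 1)) ↔
      ∀ (k : ℤ) (j : ℕ), k ≤ m → j < n → CurvesVanish D Ω k j := by
  constructor
  · intro h k j hk hj K L _ _ _ _ _ _ _ _ hL
    exact zero_of_coniveau hP Ω hΩ hm (fun k hk j hj => h k j hk hj) (hD.coniveau K L hL Ω) k hk
      j hj
  · exact fun h k j hk hj => zero_of_hOne hP hc hD Ω hΩ hm hbase h j hj k hk Ω

/-- Vanishing for `Ω` in all degrees `≤ m` and positive weights is equivalent to vanishing in degree
`m` for the motives `h^1` of all curves over `Ω`. -/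
theorem iff_curves (hc : IsContinuous P) {D : CurveCoh P} (hD : IsCurveCoh D) (Ω : Type) [Field Ω]
    [Algebra k₀ Ω] [IsAlgClosed Ω] (hΩ : ℵ₀ < #Ω) {m : ℤ} (hm : m ≤ 0)
    (hbase : ∀ (K : Type) [Field K] [Algebra k₀ K] [IsAlgClosed K] [Algebra.IsAlgebraic k₀ K]
      (k : ℤ) (j : ℕ), k ≤ m → Zero P K k (j + 1)) :
    (∀ (k : ℤ) (j : ℕ), k ≤ m → Zero P Ω k (j + 1)) ↔ ∀ j : ℕ, CurvesVanish D Ω m j := by
  constructor
  · intro h j
    exact (iff_curves_weight hP hc hD Ω hΩ hm hbase (j + 1)).mp (fun k j hk _ => h k j hk) m j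
      le_rfl (Nat.lt_succ_self j)
  · intro h k j hk
    refine (iff_curves_weight hP hc hD Ω hΩ hm hbase (j + 1)).mpr ?_ k j hk (Nat.lt_succ_self j)
    intro k j hk _ K L _ _ _ _ _ _ _ _ hL
    exact zero_of_degree (hD.isCoh K L hL) Ω hΩ (fun j => h j K L hL) k hk j

end Pool.Agent.X307.BS
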